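import Mathlib

set_option autoImplicit false

/-!
Transversal designs with four groups (pairs of orthogonal latin squares):
products, prime fields, and Wilson's construction `3 t + u`.
-/

namespace Pool.Agent.Hhelper79.BSP

/-- `f i b` is the point of block `b` in the group `i`. -/
def IsTD {X ι : Type} (f : Fin 4 → ι → X) : Prop :=
  ∀ i j : Fin 4, i ≠ j → Function.Bijective (fun b => (f i b, f j b))

/-- there is a transversal design with four groups of size `n`. -/
def HasTD (n : ℕ) : Prop := ∃ (ι : Type) (f : Fin 4 → ι → Fin n), IsTD f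

theorem HasTD.of_card {X ι : Type} [Fintype X] {n : ℕ} (hn : Fintype.card X = n)
    (f : Fin 4 → ι → X) (hf : IsTD f) : HasTD n := by
  classical
  let e : X ≃ Fin n := Fintype.equivFinOfCardEq hn
  refine ⟨ι, fun i b => e (f i b), fun i j hij => ?_⟩
  have h1 := hf i j hij
  have h2 : Function.Bijective (Prod.map e e) := (e.prodCongr e).bijective
  exact h2.comp h1

/-- from surjectivity and a count -/
theorem IsTD.of_surj {X ι : Type} [Fintype X] [Fintype ι] (f : Fin 4 → ι → X)
    (hs : ∀ i j : Fin 4, i ≠ j → ∀ x y : X, ∃ b, f i b = x ∧ f j b = y)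
    (hc : Fintype.card ι = Fintype.card X * Fintype.card X) : IsTD f := by
  classical
  intro i j hij
  have hsurj : Function.Surjective (fun b => (f i b, f j b)) := by
    rintro ⟨x, y⟩
    obtain ⟨b, h1, h2⟩ := hs i j hij x y
    exact ⟨b, by simp [h1, h2]⟩
  rw [Fintype.bijective_iff_surjective_and_card]
  exact ⟨hsurj, by rw [Fintype.card_prod, hc]⟩

theorem HasTD.mul {m n : ℕ} (hm : HasTD m) (hn : HasTD n) : HasTD (m * n) := by
  obtain ⟨ι, f, hf⟩ := hm
  obtain ⟨κ, g, hg⟩ := hn
  refine HasTD.of_card (X := Fin m × Fin n) (ι := ι × κ) (by simp)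
    (fun i b => (f i b.1, g i b.2)) ?_
  intro i j hij
  obtain ⟨fi, fs⟩ := hf i j hij
  obtain ⟨gi, gs⟩ := hg i j hij
  constructor
  · rintro ⟨a, b⟩ ⟨c, d⟩ h
    simp only [Prod.mk.injEq] at h
    obtain ⟨⟨h1, h2⟩, h3, h4⟩ := h
    have e1 : a = c := fi (by simp [h1, h3])
    have e2 : b = d := gi (by simp [h2, h4])
    rw [e1, e2]
  · rintro ⟨⟨a, b⟩, ⟨c, d⟩⟩
    obtain ⟨p, hp⟩ := fs (a, c)
    obtain ⟨q, hq⟩ := gs (b, d)
    simp only [Prod.mk.injEq] at hp hq
    exact ⟨(p, q), by simp [hp.1, hp.2, hq.1, hq.2]⟩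

/-- the linear design over a finite commutative ring: `u` and `u - 1` are units. -/
theorem HasTD.of_ring {R : Type} [CommRing R] [Fintype R] (u : R) (hu : IsUnit u)
    (hu1 : IsUnit (u - 1)) : HasTD (Fintype.card R) := by
  classical
  obtain ⟨v, hv⟩ := hu.exists_right_inv
  obtain ⟨w, hw⟩ := hu1.exists_right_inv
  refine HasTD.of_card (X := R) (ι := R × R) rfl
    (fun i b => ![b.1, b.2, b.1 + b.2, b.1 + u * b.2] i) ?_
  refine IsTD.of_surj _ ?_ (by simp)
  intro i j hij x y
  fin_cases i <;> fin_cases j <;> first | exact absurd rfl hij | skip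
  · exact ⟨(x, y), by simp⟩
  · exact ⟨(x, y - x), by simp⟩
  · refine ⟨(x, v * (y - x)), by simp, ?_⟩
    simp
    linear_combination (y - x) * hv
  · exact ⟨(y, x), by simp⟩
  · exact ⟨(y - x, x), by simp⟩
  · refine ⟨(y - u * x, x), by simp, by simp⟩
  · exact ⟨(y, x - y), by simp⟩
  · exact ⟨(x - y, y), by simp⟩
  · -- b.1 + b.2 = x, b.1 + u b.2 = y
    refine ⟨(x - w * (y - x), w * (y - x)), by simp, ?_⟩
    simp
    linear_combination (y - x) * hw
  · refine ⟨(y, v * (x - y)), ?_, by simp⟩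
    simp
    linear_combination (x - y) * hv
  · refine ⟨(x - u * y, y), by simp, by simp⟩
  · refine ⟨(y - w * (x - y), w * (x - y)), ?_, by simp⟩
    simp
    linear_combination (x - y) * hw

/-- odd orders -/
theorem HasTD.odd {n : ℕ} (hn : Odd n) : HasTD n := by
  have hpos : 0 < n := hn.pos
  haveI : NeZero n := ⟨by omega⟩
  have h2 : IsUnit (2 : ZMod n) := by
    have : IsUnit ((2 : ℕ) : ZMod n) := by
      rw [ZMod.isUnit_iff_coprime]
      exact (Nat.coprime_two_left).2 hn
    simpa using this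
  have h := HasTD.of_ring (R := ZMod n) 2 h2 (by
    have : (2 : ZMod n) - 1 = 1 := by ring
    rw [this]; exact isUnit_one)
  rwa [ZMod.card] at h

/-- powers of two, except two -/
theorem HasTD.two_pow {a : ℕ} (ha : 2 ≤ a) : HasTD (2 ^ a) := by
  classical
  haveI : Fact (Nat.Prime 2) := ⟨Nat.prime_two⟩
  haveI : Fintype (GaloisField 2 a) := Fintype.ofFinite _
  have hcard : Fintype.card (GaloisField 2 a) = 2 ^ a := by
    rw [← Nat.card_eq_fintype_card]
    exact GaloisField.card 2 a (by omega)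
  have h4 : 4 ≤ 2 ^ a := by
    calc 4 = 2 ^ 2 := by norm_num
      _ ≤ 2 ^ a := Nat.pow_le_pow_right (by norm_num) ha
  obtain ⟨u, hu⟩ : ∃ u : GaloisField 2 a, u ∉ ({0, 1} : Finset (GaloisField 2 a)) := by
    by_contra hcon
    push Not at hcon
    have h1 : (Finset.univ : Finset (GaloisField 2 a)) ⊆ {0, 1} := fun x _ => hcon x
    have h2 := Finset.card_le_card h1
    have h3 : ({0, 1} : Finset (GaloisField 2 a)).card ≤ 2 := Finset.card_le_two
    rw [Finset.card_univ, hcard] at h2
    omega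
  simp only [Finset.mem_insert, Finset.mem_singleton, not_or] at hu
  have h := HasTD.of_ring (R := GaloisField 2 a) u (isUnit_iff_ne_zero.2 hu.1)
    (isUnit_iff_ne_zero.2 (sub_ne_zero.2 hu.2))
  rwa [hcard] at h

/-- the design with groups of size 3 -/
def g3 (i : Fin 4) (q : Fin 3 × Fin 3) : Fin 3 :=
  ![q.1, q.2, q.1 + q.2, q.1 + 2 * q.2] i

/-- multiplication by a generator of the field with four elements -/
def om : Fin 4 → Fin 4 := ![0, 2, 3, 1]

/-- addition table of the field with four elements -/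
def ad : Fin 4 → Fin 4 → Fin 4 :=
  ![![0, 1, 2, 3], ![1, 0, 3, 2], ![2, 3, 0, 1], ![3, 2, 1, 0]]

/-- the design with groups of size 4 -/
def g4 (i : Fin 4) (q : Fin 4 × Fin 4) : Fin 4 :=
  ![q.1, q.2, ad q.1 q.2, ad q.1 (om q.2)] i

theorem hg3 : ∀ i j : Fin 4, i ≠ j → ∀ a b : Fin 3, ∃ q, g3 i q = a ∧ g3 j q = b := by
  decide

set_option maxRecDepth 4000 in
theorem hg4 : ∀ i j : Fin 4, i ≠ j → ∀ a b : Fin 4, ∃ q, g4 i q = a ∧ g4 j q = b := by
  decide

theorem g4_zero : ∀ i : Fin 4, g4 i (0, 0) = 0 := by decide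

/-- Wilson's construction -/
theorem HasTD.wilson {t u : ℕ} (ht : Nat.Coprime t 6) (hut : u ≤ t) (hu : HasTD u)
    (ht0 : t ≠ 0) : HasTD (3 * t + u) := by
  classical
  haveI : NeZero t := ⟨ht0⟩
  obtain ⟨U, hUsub, hUcard⟩ : ∃ U : Finset (ZMod t), U ⊆ Finset.univ ∧ U.card = u := by
    apply Finset.exists_subset_card_eq
    rw [Finset.card_univ, ZMod.card]
    exact hut
  obtain ⟨κ, f0, hf0⟩ := hu
  let eU : Fin u ≃ {h // h ∈ U} := (Fintype.equivFinOfCardEq (by simp [hUcard])).symm
  let fU : Fin 4 → κ → {h // h ∈ U} := fun i b => eU (f0 i b)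
  have hκ : Nonempty (κ ≃ Fin u × Fin u) := ⟨Equiv.ofBijective _ (hf0 0 1 (by decide))⟩
  obtain ⟨eκ⟩ := hκ
  haveI : Fintype κ := Fintype.ofEquiv _ eκ.symm
  have hκc : Fintype.card κ = u * u := by
    rw [Fintype.card_congr eκ]; simp
  -- units
  have hun : ∀ i j : Fin 4, i ≠ j → IsUnit (((i : ℕ) : ZMod t) - ((j : ℕ) : ZMod t)) := by
    have h6 : IsUnit ((6 : ℕ) : ZMod t) := by
      rw [ZMod.isUnit_iff_coprime]; exact ht.symm
    have h2 : IsUnit (2 : ZMod t) := by
      have : ((6 : ℕ) : ZMod t) = 2 * 3 := by norm_num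
      rw [this] at h6
      exact isUnit_of_mul_isUnit_left h6
    have h3 : IsUnit (3 : ZMod t) := by
      have : ((6 : ℕ) : ZMod t) = 2 * 3 := by norm_num
      rw [this] at h6
      exact isUnit_of_mul_isUnit_right h6
    have n1 : IsUnit (-1 : ZMod t) := isUnit_one.neg
    intro i j hij
    fin_cases i <;> fin_cases j <;> first | exact absurd rfl hij | skip
    all_goals norm_num
    all_goals first | exact h2 | exact h3 | exact isUnit_one | skip
    all_goals first | exact h2.neg | exact h3.neg | exact n1 | skip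
  let F : Fin 4 → (((ZMod t × {h // h ∉ U}) × (Fin 3 × Fin 3)) ⊕
      (((ZMod t × {h // h ∈ U}) × {q : Fin 4 × Fin 4 // q ≠ (0, 0)}) ⊕ κ)) →
      (ZMod t × Fin 3) ⊕ {h // h ∈ U} := fun i b =>
    match b with
    | Sum.inl ((z, h), q) => Sum.inl (z + ((i : ℕ) : ZMod t) * h.1, g3 i q)
    | Sum.inr (Sum.inl ((z, h), q)) =>
        Fin.cases (motive := fun _ => (ZMod t × Fin 3) ⊕ {h // h ∈ U}) (Sum.inr h)
          (fun c => Sum.inl (z + ((i : ℕ) : ZMod t) * h.1, c)) (g4 i q.1)
    | Sum.inr (Sum.inr k) => Sum.inr (fU i k)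
  refine HasTD.of_card (X := (ZMod t × Fin 3) ⊕ {h // h ∈ U}) ?_ F ?_
  · simp [hUcard, ZMod.card, Nat.mul_comm]
  refine IsTD.of_surj F ?_ ?_
  · intro i j hij x y
    rcases x with ⟨x, a⟩ | x
    · rcases y with ⟨y, b⟩ | y
      · -- both ordinary
        obtain ⟨v, hv⟩ := (hun i j hij).exists_right_inv
        set h : ZMod t := v * (x - y) with hh
        have e1 : ((i : ℕ) : ZMod t) * h - ((j : ℕ) : ZMod t) * h = x - y := by
          rw [hh]; linear_combination (x - y) * hv
        by_cases hU : h ∈ U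
        · obtain ⟨q, hq1, hq2⟩ := hg4 i j hij a.succ b.succ
          have hq0 : q ≠ (0, 0) := by
            rintro rfl
            rw [g4_zero] at hq1
            exact Fin.succ_ne_zero a hq1.symm
          refine ⟨Sum.inr (Sum.inl ((x - ((i : ℕ) : ZMod t) * h, ⟨h, hU⟩), ⟨q, hq0⟩)), ?_, ?_⟩
          · simp only [F, hq1, Fin.cases_succ]
            congr 2
            ring
          · simp only [F, hq2, Fin.cases_succ]
            congr 2
            linear_combination -e1
        · obtain ⟨q, hq1, hq2⟩ := hg3 i j hij a b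
          refine ⟨Sum.inl ((x - ((i : ℕ) : ZMod t) * h, ⟨h, hU⟩), q), ?_, ?_⟩
          · simp only [F, hq1]
            congr 2
            ring
          · simp only [F, hq2]
            congr 2
            linear_combination -e1
      · -- x ordinary, y new
        obtain ⟨q, hq1, hq2⟩ := hg4 i j hij a.succ 0
        have hq0 : q ≠ (0, 0) := by
          rintro rfl
          rw [g4_zero] at hq1
          exact Fin.succ_ne_zero a hq1.symm
        refine ⟨Sum.inr (Sum.inl ((x - ((i : ℕ) : ZMod t) * y.1, y), ⟨q, hq0⟩)), ?_, ?_⟩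
        · simp only [F, hq1, Fin.cases_succ]
          congr 2
          ring
        · simp only [F, hq2, Fin.cases_zero]
    · rcases y with ⟨y, b⟩ | y
      · obtain ⟨q, hq1, hq2⟩ := hg4 i j hij 0 b.succ
        have hq0 : q ≠ (0, 0) := by
          rintro rfl
          rw [g4_zero] at hq2
          exact Fin.succ_ne_zero b hq2.symm
        refine ⟨Sum.inr (Sum.inl ((y - ((j : ℕ) : ZMod t) * x.1, x), ⟨q, hq0⟩)), ?_, ?_⟩
        · simp only [F, hq1, Fin.cases_zero]
        · simp only [F, hq2, Fin.cases_succ]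
          congr 2
          ring
      · obtain ⟨k, hk⟩ := (hf0 i j hij).2 (eU.symm x, eU.symm y)
        simp only [Prod.mk.injEq] at hk
        refine ⟨Sum.inr (Sum.inr k), ?_, ?_⟩
        · simp only [F, fU, hk.1, Equiv.apply_symm_apply]
        · simp only [F, fU, hk.2, Equiv.apply_symm_apply]
  · have hcompl : Fintype.card {h : ZMod t // h ∉ U} = t - u := by
      rw [Fintype.card_subtype_compl, ZMod.card]
      simp [hUcard]
    have h15 : Fintype.card {q : Fin 4 × Fin 4 // q ≠ (0, 0)} = 15 := by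
      decide
    simp only [Fintype.card_sum, Fintype.card_prod, ZMod.card, Fintype.card_fin, hcompl, h15, hκc,
      Fintype.card_coe, hUcard]
    obtain ⟨d, rfl⟩ := Nat.exists_eq_add_of_le hut
    rw [Nat.add_sub_cancel_left]
    ring

end Pool.Agent.Hhelper79.BSP
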