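import Mathlib
import Pool.Agent.Hhelper79.BSP.Wilson

set_option autoImplicit false

/-!
Explicit pairs of orthogonal latin squares of orders 10 and 14.
-/

namespace Pool.Agent.Hhelper79.BSP

/-- the four coordinates of the block with number `b` -/
def coord (n : ℕ) (L M : List ℕ) (i : Fin 4) (b : ℕ) : ℕ :=
  match i with
  | 0 => b / n
  | 1 => b % n
  | 2 => L.getD b 0
  | 3 => M.getD b 0

def nodupB : List ℕ → Bool
  | [] => true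
  | a :: l => !(l.elem a) && nodupB l

theorem nodupB_spec : ∀ l : List ℕ, nodupB l = true → l.Nodup
  | [], _ => List.nodup_nil
  | a :: l, h => by
      simp only [nodupB, Bool.and_eq_true, Bool.not_eq_true', List.elem_eq_mem,
        decide_eq_false_iff_not] at h
      exact List.nodup_cons.2 ⟨h.1, nodupB_spec l h.2⟩

def check (n : ℕ) (L M : List ℕ) : Bool :=
  (List.finRange 4).all fun i =>
    ((List.range (n * n)).all fun b => Nat.blt (coord n L M i b) n) &&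
    (List.finRange 4).all fun j =>
      (i == j) || nodupB ((List.range (n * n)).map fun b => coord n L M i b * n + coord n L M j b)

theorem hasTD_of_check {n : ℕ} {L M : List ℕ} (hn : 0 < n) (h : check n L M = true) :
    HasTD n := by
  unfold check at h
  rw [List.all_eq_true] at h
  have h1 : ∀ i : Fin 4, ∀ b < n * n, coord n L M i b < n := by
    intro i b hb
    have := h i (List.mem_finRange i)
    rw [Bool.and_eq_true] at this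
    have h3 := this.1
    rw [List.all_eq_true] at h3
    have h4 := h3 b (List.mem_range.2 hb)
    simpa [Nat.blt_eq] using h4
  have h2 : ∀ i j : Fin 4, i ≠ j → ∀ b < n * n, ∀ c < n * n,
      coord n L M i b = coord n L M i c → coord n L M j b = coord n L M j c → b = c := by
    intro i j hij b hb c hc e1 e2
    have := h i (List.mem_finRange i)
    rw [Bool.and_eq_true] at this
    have h3 := this.2
    rw [List.all_eq_true] at h3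
    have h4 := h3 j (List.mem_finRange j)
    rw [Bool.or_eq_true] at h4
    rcases h4 with h4 | h4
    · exact absurd (by simpa using h4) hij
    · have h5 := nodupB_spec _ h4
      exact List.inj_on_of_nodup_map h5 (List.mem_range.2 hb) (List.mem_range.2 hc)
        (by simp only [e1, e2])
  refine HasTD.of_card (X := Fin n) (ι := Fin (n * n)) (by simp)
    (fun i b => ⟨coord n L M i b, h1 i b b.2⟩) ?_
  intro i j hij
  rw [Fintype.bijective_iff_injective_and_card]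
  refine ⟨?_, by simp⟩
  intro b c hbc
  simp only [Prod.mk.injEq, Fin.mk.injEq] at hbc
  exact Fin.ext (h2 i j hij b b.2 c c.2 hbc.1 hbc.2)


def L10 : List ℕ := [
    1, 7, 5, 9, 8, 4, 6, 3, 2, 0,
    0, 2, 7, 6, 9, 8, 5, 4, 3, 1,
    6, 1, 3, 7, 0, 9, 8, 5, 4, 2,
    8, 0, 2, 4, 7, 1, 9, 6, 5, 3,
    9, 8, 1, 3, 5, 7, 2, 0, 6, 4,
    3, 9, 8, 2, 4, 6, 7, 1, 0, 5,
    7, 4, 9, 8, 3, 5, 0, 2, 1, 6,
    5, 6, 0, 1, 2, 3, 4, 7, 8, 9,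
    4, 5, 6, 0, 1, 2, 3, 8, 9, 7,
    2, 3, 4, 5, 6, 0, 1, 9, 7, 8]

def M10 : List ℕ := [
    3, 1, 9, 5, 2, 7, 8, 6, 0, 4,
    8, 4, 2, 9, 6, 3, 7, 0, 1, 5,
    7, 8, 5, 3, 9, 0, 4, 1, 2, 6,
    5, 7, 8, 6, 4, 9, 1, 2, 3, 0,
    2, 6, 7, 8, 0, 5, 9, 3, 4, 1,
    9, 3, 0, 7, 8, 1, 6, 4, 5, 2,
    0, 9, 4, 1, 7, 8, 2, 5, 6, 3,
    6, 0, 1, 2, 3, 4, 5, 7, 9, 8,
    4, 5, 6, 0, 1, 2, 3, 8, 7, 9,
    1, 2, 3, 4, 5, 6, 0, 9, 8, 7]

theorem check10 : check 10 L10 M10 = true := by decide +kernel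

theorem hasTD_10 : HasTD 10 := hasTD_of_check (by norm_num) check10

def L14 : List ℕ := [
    6, 5, 13, 2, 12, 8, 4, 3, 10, 11, 0, 9, 7, 1,
    1, 7, 6, 13, 3, 12, 9, 5, 4, 0, 11, 10, 8, 2,
    11, 2, 8, 7, 13, 4, 12, 10, 6, 5, 1, 0, 9, 3,
    2, 11, 3, 9, 8, 13, 5, 12, 0, 7, 6, 1, 10, 4,
    7, 3, 11, 4, 10, 9, 13, 6, 12, 1, 8, 2, 0, 5,
    9, 8, 4, 11, 5, 0, 10, 13, 7, 12, 2, 3, 1, 6,
    3, 10, 9, 5, 11, 6, 1, 0, 13, 8, 12, 4, 2, 7,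
    12, 4, 0, 10, 6, 11, 7, 2, 1, 13, 9, 5, 3, 8,
    10, 12, 5, 1, 0, 7, 11, 8, 3, 2, 13, 6, 4, 9,
    13, 0, 12, 6, 2, 1, 8, 11, 9, 4, 3, 7, 5, 10,
    4, 13, 1, 12, 7, 3, 2, 9, 11, 10, 5, 8, 6, 0,
    0, 1, 2, 3, 4, 5, 6, 7, 8, 9, 10, 11, 12, 13,
    8, 9, 10, 0, 1, 2, 3, 4, 5, 6, 7, 12, 13, 11,
    5, 6, 7, 8, 9, 10, 0, 1, 2, 3, 4, 13, 11, 12]

def M14 : List ℕ := [
    6, 1, 10, 13, 2, 7, 11, 12, 0, 8, 3, 4, 5, 9,
    4, 7, 2, 0, 13, 3, 8, 11, 12, 1, 9, 5, 6, 10,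
    10, 5, 8, 3, 1, 13, 4, 9, 11, 12, 2, 6, 7, 0,
    3, 0, 6, 9, 4, 2, 13, 5, 10, 11, 12, 7, 8, 1,
    12, 4, 1, 7, 10, 5, 3, 13, 6, 0, 11, 8, 9, 2,
    11, 12, 5, 2, 8, 0, 6, 4, 13, 7, 1, 9, 10, 3,
    2, 11, 12, 6, 3, 9, 1, 7, 5, 13, 8, 10, 0, 4,
    9, 3, 11, 12, 7, 4, 10, 2, 8, 6, 13, 0, 1, 5,
    13, 10, 4, 11, 12, 8, 5, 0, 3, 9, 7, 1, 2, 6,
    8, 13, 0, 5, 11, 12, 9, 6, 1, 4, 10, 2, 3, 7,
    0, 9, 13, 1, 6, 11, 12, 10, 7, 2, 5, 3, 4, 8,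
    5, 6, 7, 8, 9, 10, 0, 1, 2, 3, 4, 11, 13, 12,
    1, 2, 3, 4, 5, 6, 7, 8, 9, 10, 0, 12, 11, 13,
    7, 8, 9, 10, 0, 1, 2, 3, 4, 5, 6, 13, 12, 11]

theorem check14 : check 14 L14 M14 = true := by decide +kernel

theorem hasTD_14 : HasTD 14 := hasTD_of_check (by norm_num) check14

end Pool.Agent.Hhelper79.BSP
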