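import Mathlib
import Pool.Agent.Hhelper79.BSP.Small

set_option autoImplicit false

/-!
For every even `n ≥ 10` there is a latin square of order `n` with `n` pairwise
disjoint transversals.
-/

namespace Pool.Agent.Hhelper79.BSP

theorem hasTD_even {n : ℕ} (hn : Even n) (h10 : 10 ≤ n) : HasTD n := by
  have hodd : ∀ u : ℕ, u % 2 = 1 → HasTD u := fun u hu => HasTD.odd (Nat.odd_iff.2 hu)
  have hc1 : ∀ q : ℕ, Nat.Coprime (6 * q + 1) 6 := by
    intro q; simp [Nat.coprime_mul_left_add_left]
  have hc5 : ∀ q : ℕ, Nat.Coprime (6 * q + 5) 6 := by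
    intro q
    have : Nat.Coprime 5 6 := by norm_num
    simpa [Nat.coprime_mul_left_add_left] using this
  obtain ⟨k, hk⟩ := hn
  rcases Nat.even_or_odd k with hk2 | hk2
  · -- divisible by four
    have hn0 : n ≠ 0 := by omega
    obtain ⟨a, m, hm, hnm⟩ := Nat.exists_eq_two_pow_mul_odd hn0
    have ha : 2 ≤ a := by
      obtain ⟨l, hl⟩ := hk2
      obtain ⟨m', hm'⟩ := hm
      by_contra hlt
      push Not at hlt
      interval_cases a
      · omega
      · omega
    rw [hnm]
    exact (HasTD.two_pow ha).mul (HasTD.odd hm)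
  · -- n = 2 mod 4
    obtain ⟨l, hl⟩ := hk2
    have hn4 : n = 4 * l + 2 := by omega
    obtain ⟨q, s, hs, hqs⟩ : ∃ q s : ℕ, s < 6 ∧ l = 6 * q + s := ⟨l / 6, l % 6,
      Nat.mod_lt _ (by norm_num), (Nat.div_add_mod l 6).symm⟩
    subst hqs
    interval_cases s
    · -- n = 24 q + 2
      have hq : 1 ≤ q := by omega
      have h := HasTD.wilson (t := 6 * q + 1) (u := 6 * q - 1) (hc1 q) (by omega)
        (hodd _ (by omega)) (by omega)
      have e : n = 3 * (6 * q + 1) + (6 * q - 1) := by omega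
      rw [e]; exact h
    · -- n = 24 q + 6
      rcases Nat.lt_or_ge q 2 with hq | hq
      · have hq1 : q = 1 := by omega
        subst hq1
        have e : n = 3 * 10 := by omega
        rw [e]
        exact (hodd 3 (by norm_num)).mul hasTD_10
      · have h := HasTD.wilson (t := 6 * q + 5) (u := 6 * q - 9) (hc5 q) (by omega)
          (hodd _ (by omega)) (by omega)
        have e : n = 3 * (6 * q + 5) + (6 * q - 9) := by omega
        rw [e]; exact h
    · -- n = 24 q + 10
      rcases Nat.lt_or_ge q 1 with hq | hq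
      · have e : n = 10 := by omega
        rw [e]; exact hasTD_10
      · have h := HasTD.wilson (t := 6 * q + 5) (u := 6 * q - 5) (hc5 q) (by omega)
          (hodd _ (by omega)) (by omega)
        have e : n = 3 * (6 * q + 5) + (6 * q - 5) := by omega
        rw [e]; exact h
    · -- n = 24 q + 14
      rcases Nat.lt_or_ge q 1 with hq | hq
      · have e : n = 14 := by omega
        rw [e]; exact hasTD_14
      · have h := HasTD.wilson (t := 6 * q + 5) (u := 6 * q - 1) (hc5 q) (by omega)
          (hodd _ (by omega)) (by omega)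
        have e : n = 3 * (6 * q + 5) + (6 * q - 1) := by omega
        rw [e]; exact h
    · -- n = 24 q + 18
      have h := HasTD.wilson (t := 6 * q + 5) (u := 6 * q + 3) (hc5 q) (by omega)
        (hodd _ (by omega)) (by omega)
      have e : n = 3 * (6 * q + 5) + (6 * q + 3) := by omega
      rw [e]; exact h
    · -- n = 24 q + 22
      have h := HasTD.wilson (t := 6 * q + 7) (u := 6 * q + 1)
        (by have := hc1 (q + 1); rwa [show 6 * (q + 1) + 1 = 6 * q + 7 by ring] at this)
        (by omega) (hodd _ (by omega)) (by omega)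
      have e : n = 3 * (6 * q + 7) + (6 * q + 1) := by omega
      rw [e]; exact h

/-- a set of pairwise disjoint transversals has at most `n` members -/
theorem card_le {n : ℕ} (hn : 0 < n) (S : Finset (Equiv.Perm (Fin n)))
    (hS : ∀ σ ∈ S, ∀ τ ∈ S, σ ≠ τ → ∀ i, σ i ≠ τ i) : S.card ≤ n := by
  have h : S.card ≤ (Finset.univ : Finset (Fin n)).card := by
    refine Finset.card_le_card_of_injOn (fun σ => σ ⟨0, hn⟩) (fun _ _ => Finset.mem_univ _) ?_
    intro σ hσ τ hτ h
    by_contra hne
    exact hS σ hσ τ hτ hne _ h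
  simpa using h

/-- the case `m = n` of the frozen statement -/
theorem exists_mate {n : ℕ} (hn : Even n) (h10 : 10 ≤ n) :
    ∃ L : Fin n → Fin n → Fin n,
      (∀ i, Function.Injective (L i)) ∧
      (∀ j, Function.Injective (fun i => L i j)) ∧
      (∃ S : Finset (Equiv.Perm (Fin n)), S.card = n ∧
        (∀ σ ∈ S, Function.Injective (fun i => L i (σ i))) ∧
        (∀ σ ∈ S, ∀ τ ∈ S, σ ≠ τ → ∀ i, σ i ≠ τ i)) ∧
      ∀ S : Finset (Equiv.Perm (Fin n)),
        (∀ σ ∈ S, Function.Injective (fun i => L i (σ i))) →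
        (∀ σ ∈ S, ∀ τ ∈ S, σ ≠ τ → ∀ i, σ i ≠ τ i) →
        S.card ≤ n := by
  classical
  obtain ⟨ι, f, hf⟩ := hasTD_even hn h10
  have hpos : 0 < n := by omega
  -- the block through `x` in group 0 and `y` in group 1
  let e01 := Equiv.ofBijective _ (hf 0 1 (by decide))
  let b : Fin n → Fin n → ι := fun x y => e01.symm (x, y)
  have hb : ∀ x y, f 0 (b x y) = x ∧ f 1 (b x y) = y := by
    intro x y
    have h : (f 0 (b x y), f 1 (b x y)) = (x, y) := e01.apply_symm_apply (x, y)
    exact ⟨(Prod.ext_iff.1 h).1, (Prod.ext_iff.1 h).2⟩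
  have huniq : ∀ i j : Fin 4, i ≠ j → ∀ c d : ι, f i c = f i d → f j c = f j d → c = d := by
    intro i j hij c d h1 h2
    exact (hf i j hij).1 (by simp [h1, h2])
  -- the block through `x` in group 0 and `s` in group 3
  let e03 := Equiv.ofBijective _ (hf 0 3 (by decide))
  have he03 : ∀ x s, f 0 (e03.symm (x, s)) = x ∧ f 3 (e03.symm (x, s)) = s := by
    intro x s
    have h : (f 0 (e03.symm (x, s)), f 3 (e03.symm (x, s))) = (x, s) :=
      e03.apply_symm_apply (x, s)
    exact ⟨(Prod.ext_iff.1 h).1, (Prod.ext_iff.1 h).2⟩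
  have hinj : ∀ s, Function.Injective (fun x => f 1 (e03.symm (x, s))) := by
    intro s x x' h
    have h1 := huniq 1 3 (by decide) _ _ h ((he03 x s).2.trans (he03 x' s).2.symm)
    rw [← (he03 x s).1, h1, (he03 x' s).1]
  let σ : Fin n → Equiv.Perm (Fin n) := fun s =>
    Equiv.ofBijective _ (Finite.injective_iff_bijective.1 (hinj s))
  have hσ : ∀ s x, σ s x = f 1 (e03.symm (x, s)) := fun s x => rfl
  have hbσ : ∀ s x, b x (σ s x) = e03.symm (x, s) := by
    intro s x
    refine huniq 0 1 (by decide) _ _ ?_ ?_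
    · rw [(hb _ _).1, (he03 x s).1]
    · rw [(hb _ _).2, hσ]
  have hdisj : ∀ s s', s ≠ s' → ∀ i, σ s i ≠ σ s' i := by
    intro s s' hss i h
    rw [hσ, hσ] at h
    have h1 := huniq 0 1 (by decide) _ _ ((he03 i s).1.trans (he03 i s').1.symm) h
    apply hss
    rw [← (he03 i s).2, h1, (he03 i s').2]
  refine ⟨fun x y => f 2 (b x y), ?_, ?_, ⟨Finset.univ.image σ, ?_, ?_, ?_⟩, ?_⟩
  · intro x y y' h
    have h1 := huniq 0 2 (by decide) _ _ ((hb x y).1.trans (hb x y').1.symm) h
    rw [← (hb x y).2, h1, (hb x y').2]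
  · intro y x x' h
    have h1 := huniq 1 2 (by decide) _ _ ((hb x y).2.trans (hb x' y).2.symm) h
    rw [← (hb x y).1, h1, (hb x' y).1]
  · rw [Finset.card_image_of_injective]
    · simp
    · intro s s' h
      by_contra hne
      exact hdisj s s' hne ⟨0, hpos⟩ (by rw [h])
  · intro τ hτ
    obtain ⟨s, -, rfl⟩ := Finset.mem_image.1 hτ
    intro x x' h
    simp only [hbσ] at h
    have h1 := huniq 2 3 (by decide) _ _ h ((he03 x s).2.trans (he03 x' s).2.symm)
    rw [← (he03 x s).1, h1, (he03 x' s).1]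
  · intro τ hτ τ' hτ' hne i
    obtain ⟨s, -, rfl⟩ := Finset.mem_image.1 hτ
    obtain ⟨s', -, rfl⟩ := Finset.mem_image.1 hτ'
    exact hdisj s s' (fun h => hne (by rw [h])) i
  · intro S _ hS
    exact card_le hpos S hS

end Pool.Agent.Hhelper79.BSP
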